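import Mathlib

/-!
# Frames forcing finitely many prescribed normal directions

For all finitely many nonzero vectors `ξ_1, …, ξ_k` of `ℝ³` there is a frame (the image of an
immersed smooth closed curve) such that every immersed disk spanned by it has each `ξ_i` as a normal
direction.

The frame is a curve in a plane which is not orthogonal to any `ξ_i`; in polar coordinates of the
plane it is `θ ↦ exp (-ε B(θ) + 2 i θ)`, so it winds twice around the origin. `B ≥ 0` vanishes to
second order at the points where `⟪·, ξ_i⟫` is extremal on the unit circle, for every `i`, and the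
two strands of the curve are different. Let `c` be any immersion of the circle with image the frame.
Its angle `ψ` is strictly monotone (its velocity is never radial), and it winds at least twice
around the origin, since it runs through both strands. All critical points of `⟪c, ξ_i⟫` are absolute
extrema. If the height function `f = ⟪H, ξ_i⟫` of an immersed disk `H` with boundary `c` had no
critical point, then its gradient, seen from the moving frame of the circle, would be a map of
winding number `-1`, whereas by the signs of the radial and the angular derivative of `f` it is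
nowhere antipodal to the map with angle `∓(ψ - const)`, of winding number at most `-2`.
-/

set_option autoImplicit false

open Set Metric Filter
open scoped Real InnerProductSpace ContDiff Topology

namespace Pool.Agent.Results.MP_873223_gt.PrescribedNormals

/-- Euclidean three-space. -/
abbrev E3 : Type := EuclideanSpace ℝ (Fin 3)

/-- A frame: the image of a smooth immersion of the circle, i.e. of a smooth `2π`-periodic map of
the line with nowhere vanishing derivative. -/
def IsFrame (l : Set E3) : Prop :=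
  ∃ h : ℝ → E3, ContDiff ℝ ∞ h ∧ Function.Periodic h (2 * π) ∧ (∀ t, deriv h t ≠ 0) ∧ range h = l

/-- `M = H (closed unit disk)` is a membrane spanned by `l`: `H` is a smooth immersion of the closed
unit disk (of `ℂ = ℝ²`) into space, and its restriction to the unit circle has image `l` (this
restriction is an immersion, since `H` is one). -/
structure IsMembrane (l : Set E3) (H : ℂ → E3) : Prop where
  smooth : ContDiffOn ℝ ∞ H (closedBall 0 1)
  immersion : ∀ x ∈ closedBall (0 : ℂ) 1,
    Function.Injective (fderivWithin ℝ H (closedBall 0 1) x)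
  boundary : H '' sphere 0 1 = l

/-- The membrane realizes `ξ` as a normal direction: at some point the normal line, the orthogonal
complement of the tangent plane, is the line spanned by `ξ`. -/
def Realizes (H : ℂ → E3) (ξ : E3) : Prop :=
  ∃ x ∈ closedBall (0 : ℂ) 1,
    (LinearMap.range (fderivWithin ℝ H (closedBall 0 1) x : ℂ →ₗ[ℝ] E3))ᗮ = ℝ ∙ ξ

/-! ### Logarithms -/

theorem exists_log {V : ℂ → ℂ} (hV : Continuous V) (h0 : ∀ x, V x ≠ 0) :
    ∃ g : ℂ → ℂ, Continuous g ∧ ∀ x, Complex.exp (g x) = V x := by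
  obtain ⟨F, ⟨-, hF⟩, -⟩ := Complex.isCoveringMapOn_exp.existsUnique_continuousMap_lifts
    (⟨V, hV⟩ : C(ℂ, ℂ)) (a₀ := 0) (e₀ := Complex.log (V 0)) (by simp [Complex.exp_log (h0 0)])
    (fun a => h0 a)
  exact ⟨F, F.continuous, fun x => congrFun hF x⟩

theorem exists_real_log {z z' : ℝ → ℂ} (hz : ∀ t, HasDerivAt z (z' t) t) (hc : Continuous z')
    (h0 : ∀ t, z t ≠ 0) :
    ∃ L : ℝ → ℂ, (∀ t, HasDerivAt L (z' t / z t) t) ∧ ∀ t, Complex.exp (L t) = z t := by
  have hzc : Continuous z := continuous_iff_continuousAt.2 fun t => (hz t).continuousAt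
  have hq : Continuous fun t => z' t / z t := hc.div hzc h0
  refine ⟨fun t => Complex.log (z 0) + ∫ s in (0 : ℝ)..t, z' s / z s, ?_, ?_⟩
  · intro t
    exact (intervalIntegral.integral_hasDerivAt_right (hq.intervalIntegrable _ _)
      (hq.stronglyMeasurableAtFilter _ _) hq.continuousAt).const_add _
  · have hL : ∀ t, HasDerivAt (fun t => Complex.log (z 0) + ∫ s in (0 : ℝ)..t, z' s / z s)
        (z' t / z t) t := fun t =>
      (intervalIntegral.integral_hasDerivAt_right (hq.intervalIntegrable _ _)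
        (hq.stronglyMeasurableAtFilter _ _) hq.continuousAt).const_add _
    have hd : ∀ t, HasDerivAt (fun t => Complex.exp (Complex.log (z 0) +
        ∫ s in (0 : ℝ)..t, z' s / z s) * (z t)⁻¹) 0 t := by
      intro t
      have h1 : HasDerivAt (fun t => Complex.exp (Complex.log (z 0) +
        ∫ s in (0 : ℝ)..t, z' s / z s) * (z t)⁻¹) _ t := ((hL t).cexp).mul ((hz t).inv (h0 t))
      refine h1.congr_deriv ?_
      have hz0 := h0 t
      field_simp
      ring
    have hconst := is_const_of_deriv_eq_zero (fun t => (hd t).differentiableAt)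
      (fun t => (hd t).deriv)
    intro t
    have := hconst t 0
    simp only [intervalIntegral.integral_same, add_zero, Complex.exp_log (h0 0)] at this
    rw [mul_inv_cancel₀ (h0 0)] at this
    exact (mul_inv_eq_one₀ (h0 t)).1 this

/-! ### A function with two branches -/

theorem branch_aux {r r₁ : ℝ → ℝ} {t a a₁ : ℝ} (hr : HasDerivAt r a t) (h1 : HasDerivAt r₁ a₁ t)
    (h : ∃ᶠ s in 𝓝[≠] t, r s = r₁ s) : r t = r₁ t ∧ a = a₁ := by
  have hf : HasDerivAt (fun s => r s - r₁ s) (a - a₁) t := hr.sub h1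
  have h' : ∃ᶠ s in 𝓝[≠] t, r s - r₁ s = 0 := h.mono fun s hs => by rw [hs, sub_self]
  constructor
  · by_contra hne
    have hne' : r t - r₁ t ≠ 0 := sub_ne_zero.2 hne
    have h2 : ∀ᶠ s in 𝓝 t, r s - r₁ s ≠ 0 := hf.continuousAt.eventually_ne hne'
    exact h' (h2.filter_mono nhdsWithin_le_nhds)
  · by_contra hne
    have hne' : a - a₁ ≠ 0 := sub_ne_zero.2 hne
    exact h' (hf.eventually_ne hne')

theorem branch {r r₁ r₂ : ℝ → ℝ} {t a a₁ a₂ : ℝ} (hr : HasDerivAt r a t)
    (h1 : HasDerivAt r₁ a₁ t) (h2 : HasDerivAt r₂ a₂ t) (h : ∀ s, r s = r₁ s ∨ r s = r₂ s) :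
    (r t = r₁ t ∧ a = a₁) ∨ (r t = r₂ t ∧ a = a₂) := by
  by_cases hc : ∃ᶠ s in 𝓝[≠] t, r s = r₁ s
  · exact Or.inl (branch_aux hr h1 hc)
  · refine Or.inr (branch_aux hr h2 ?_)
    rw [not_frequently] at hc
    exact (hc.mono fun s hs => (h s).resolve_left hs).frequently

/-! ### The trigonometric functions of a direction -/

/-- `‖u‖ sin (α - arg u)` -/
noncomputable def sn (u : ℂ) (α : ℝ) : ℝ := u.re * Real.sin α - u.im * Real.cos α

/-- `‖u‖ cos (α - arg u)` -/
noncomputable def cs (u : ℂ) (α : ℝ) : ℝ := u.re * Real.cos α + u.im * Real.sin α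

theorem sn_eq (u : ℂ) (α : ℝ) : sn u α = ‖u‖ * Real.sin (α - u.arg) := by
  rw [Real.sin_sub, sn, ← Complex.norm_mul_cos_arg u, ← Complex.norm_mul_sin_arg u]
  ring

theorem cs_eq (u : ℂ) (α : ℝ) : cs u α = ‖u‖ * Real.cos (α - u.arg) := by
  rw [Real.cos_sub, cs, ← Complex.norm_mul_cos_arg u, ← Complex.norm_mul_sin_arg u]
  ring

theorem hasDerivAt_sn (u : ℂ) (α : ℝ) : HasDerivAt (sn u) (cs u α) α := by
  have h : HasDerivAt (sn u) (u.re * Real.cos α - u.im * -Real.sin α) α :=
    ((Real.hasDerivAt_sin α).const_mul u.re).sub ((Real.hasDerivAt_cos α).const_mul u.im)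
  exact h.congr_deriv (by rw [cs]; ring)

theorem hasDerivAt_cs (u : ℂ) (α : ℝ) : HasDerivAt (cs u) (-sn u α) α := by
  have h : HasDerivAt (cs u) (u.re * -Real.sin α + u.im * Real.cos α) α :=
    ((Real.hasDerivAt_cos α).const_mul u.re).add ((Real.hasDerivAt_sin α).const_mul u.im)
  exact h.congr_deriv (by rw [sn]; ring)

theorem sn_add (u : ℂ) (α : ℝ) (m : ℤ) : sn u (α + m * (2 * π)) = sn u α := by
  simp [sn, Real.sin_add_int_mul_two_pi, Real.cos_add_int_mul_two_pi]

theorem cs_add (u : ℂ) (α : ℝ) (m : ℤ) : cs u (α + m * (2 * π)) = cs u α := by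
  simp [cs, Real.sin_add_int_mul_two_pi, Real.cos_add_int_mul_two_pi]

theorem re_exp_mul (u : ℂ) (r α : ℝ) :
    (Complex.exp (r + α * Complex.I) * (starRingEnd ℂ) u).re = Real.exp r * cs u α := by
  have h : Complex.exp (r + α * Complex.I) = ((Real.exp r * Real.cos α : ℝ) : ℂ) +
      ((Real.exp r * Real.sin α : ℝ) : ℂ) * Complex.I := by
    push_cast
    rw [Complex.exp_add, Complex.exp_mul_I]
    ring
  rw [h, cs]
  simp only [Complex.mul_re, Complex.add_re, Complex.ofReal_re, Complex.add_im, Complex.ofReal_im,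
    Complex.I_re, Complex.I_im, Complex.mul_im, Complex.conj_re, Complex.conj_im]
  ring

/-! ### The radial function of the curve -/

variable {k : ℕ}

/-- The radial function: the curve is `θ ↦ exp (-ε B θ + 2 i θ)`. -/
noncomputable def B (u : Fin k → ℂ) (θ : ℝ) : ℝ :=
  (2 + Real.cos θ) * ∏ i, (sn (u i) (2 * θ)) ^ 2

theorem B_nonneg (u : Fin k → ℂ) (θ : ℝ) : 0 ≤ B u θ := by
  have := Real.neg_one_le_cos θ
  exact mul_nonneg (by linarith) (Finset.prod_nonneg fun i _ => sq_nonneg _)

theorem B_zero (u : Fin k → ℂ) (θ : ℝ) (i : Fin k) (h : sn (u i) (2 * θ) = 0) : B u θ = 0 := by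
  rw [B, Finset.prod_eq_zero (Finset.mem_univ i) (by rw [h]; norm_num), mul_zero]

theorem B_add (u : Fin k → ℂ) (θ : ℝ) (m : ℤ) : B u (θ + m * (2 * π)) = B u θ := by
  have h : ∀ i, sn (u i) (2 * (θ + m * (2 * π))) = sn (u i) (2 * θ) := by
    intro i
    have := sn_add (u i) (2 * θ) (2 * m)
    rw [← this]
    congr 1
    push_cast
    ring
  simp only [B, h, Real.cos_add_int_mul_two_pi]

theorem B_add_pi (u : Fin k → ℂ) (θ : ℝ) :
    B u (θ + π) = (2 - Real.cos θ) * ∏ i, (sn (u i) (2 * θ)) ^ 2 := by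
  have h : ∀ i, sn (u i) (2 * (θ + π)) = sn (u i) (2 * θ) := by
    intro i
    have := sn_add (u i) (2 * θ) 1
    rw [← this]
    congr 1
    push_cast
    ring
  simp only [B, h, Real.cos_add_pi]
  ring

theorem contDiff_sn (u : ℂ) : ContDiff ℝ ∞ (sn u) := by
  unfold sn
  fun_prop

theorem contDiff_B (u : Fin k → ℂ) : ContDiff ℝ ∞ (B u) := by
  unfold B
  refine ContDiff.mul (by fun_prop) (contDiff_prod fun i _ => ?_)
  exact ((contDiff_sn (u i)).comp (by fun_prop)).pow 2

/-- the derivative of `B` at an angle is at most a multiple of `sn (u i)` of the double angle -/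
theorem B_deriv_bound (u : Fin k → ℂ) :
    ∃ K : ℝ, 0 ≤ K ∧ ∀ i θ, |deriv (B u) θ * cs (u i) (2 * θ)| ≤ K * |sn (u i) (2 * θ)| := by
  have key : ∀ i, ∃ K : ℝ, ∀ θ, |deriv (B u) θ * cs (u i) (2 * θ)| ≤ K * |sn (u i) (2 * θ)| := by
    intro i
    let R : ℝ → ℝ := fun θ => (2 + Real.cos θ) * ∏ j ∈ Finset.univ.erase i, (sn (u j) (2 * θ)) ^ 2
    have hR : ContDiff ℝ ∞ R := by
      refine ContDiff.mul (by fun_prop) (contDiff_prod fun i _ => ?_)
      exact ((contDiff_sn (u i)).comp (by fun_prop)).pow 2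
    have hB : B u = fun θ => (sn (u i) (2 * θ)) ^ 2 * R θ := by
      funext θ
      simp only [B, R]
      rw [← Finset.mul_prod_erase Finset.univ _ (Finset.mem_univ i)]
      ring
    have hRd : ∀ θ, HasDerivAt R (deriv R θ) θ := fun θ =>
      (hR.differentiable (by simp) θ).hasDerivAt
    have hs : ∀ θ, HasDerivAt (fun θ => sn (u i) (2 * θ)) (cs (u i) (2 * θ) * 2) θ := by
      intro θ
      have h2 : HasDerivAt (fun θ : ℝ => 2 * θ) 2 θ := by
        simpa using (hasDerivAt_id θ).const_mul (2 : ℝ)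
      exact (hasDerivAt_sn (u i) (2 * θ)).comp θ h2
    have hd : ∀ θ, deriv (B u) θ =
        sn (u i) (2 * θ) * (4 * cs (u i) (2 * θ) * R θ + sn (u i) (2 * θ) * deriv R θ) := by
      intro θ
      rw [hB]
      have h3 : HasDerivAt (fun θ => (sn (u i) (2 * θ)) ^ 2 * R θ) _ θ :=
        ((hs θ).pow 2).mul (hRd θ)
      rw [h3.deriv]
      simp only [Pi.pow_apply]
      push_cast
      ring
    let Q : ℝ → ℝ := fun θ => (4 * cs (u i) (2 * θ) * R θ + sn (u i) (2 * θ) * deriv R θ) *
      cs (u i) (2 * θ)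
    have hcsc : Continuous fun θ => cs (u i) (2 * θ) := by
      unfold cs
      fun_prop
    have hsnc : Continuous fun θ => sn (u i) (2 * θ) := by
      unfold sn
      fun_prop
    have hQc : Continuous Q := by
      have h1 := hR.continuous
      have h2 : Continuous (deriv R) := hR.continuous_deriv (by simp)
      fun_prop
    obtain ⟨K, hK⟩ := (isCompact_Icc (a := (0 : ℝ)) (b := 2 * π)).exists_bound_of_continuousOn
      hQc.continuousOn
    -- periodicity
    have hRp : ∀ θ (m : ℤ), R (θ + m * (2 * π)) = R θ := by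
      intro θ m
      have h : ∀ i, sn (u i) (2 * (θ + m * (2 * π))) = sn (u i) (2 * θ) := by
        intro i
        have := sn_add (u i) (2 * θ) (2 * m)
        rw [← this]
        congr 1
        push_cast
        ring
      simp only [R, h, Real.cos_add_int_mul_two_pi]
    have hQp : ∀ θ (m : ℤ), Q (θ + m * (2 * π)) = Q θ := by
      intro θ m
      have h : ∀ i, sn (u i) (2 * (θ + m * (2 * π))) = sn (u i) (2 * θ) := by
        intro i
        have := sn_add (u i) (2 * θ) (2 * m)
        rw [← this]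
        congr 1
        push_cast
        ring
      have h' : ∀ i, cs (u i) (2 * (θ + m * (2 * π))) = cs (u i) (2 * θ) := by
        intro i
        have := cs_add (u i) (2 * θ) (2 * m)
        rw [← this]
        congr 1
        push_cast
        ring
      have hdR : deriv R (θ + m * (2 * π)) = deriv R θ := by
        have : R = fun x => R (x + m * (2 * π)) := by
          funext x
          rw [hRp]
        conv_rhs => rw [this]
        rw [deriv_comp_add_const]
      simp only [Q, h, h', hdR, hRp]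
    refine ⟨K, fun θ => ?_⟩
    have hbound : |Q θ| ≤ K := by
      obtain ⟨m, hm⟩ : ∃ m : ℤ, θ + m * (2 * π) ∈ Icc (0 : ℝ) (2 * π) := by
        obtain ⟨m, hm, -⟩ := existsUnique_add_zsmul_mem_Ico (Real.two_pi_pos) θ 0
        refine ⟨m, ?_⟩
        rw [zero_add, zsmul_eq_mul] at hm
        exact ⟨hm.1, hm.2.le⟩
      have := hK _ hm
      rwa [hQp, Real.norm_eq_abs] at this
    rw [hd]
    calc |sn (u i) (2 * θ) * (4 * cs (u i) (2 * θ) * R θ + sn (u i) (2 * θ) * deriv R θ) *
          cs (u i) (2 * θ)| = |Q θ| * |sn (u i) (2 * θ)| := by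
          rw [← abs_mul]
          congr 1
          simp only [Q]
          ring
      _ ≤ K * |sn (u i) (2 * θ)| := by gcongr
  choose K hK using key
  obtain ⟨M, hM⟩ := Finite.exists_le K
  refine ⟨max M 0, le_max_right _ _, fun i θ => (hK i θ).trans ?_⟩
  gcongr
  exact (hM i).trans (le_max_left _ _)

/-- the two strands of the curve are different -/
theorem exists_strands (u : Fin k → ℂ) (hu : ∀ i, u i ≠ 0) : ∃ θ, B u θ ≠ B u (θ + π) := by
  obtain ⟨τ, hτ⟩ := Infinite.exists_notMem_finset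
    (Finset.univ.image fun i : Fin k => (u i).im / (u i).re)
  have hcos := Real.cos_arctan_pos τ
  have h : ∀ i, sn (u i) (2 * (Real.arctan τ / 2)) ≠ 0 := by
    intro i
    have h2 : (2 : ℝ) * (Real.arctan τ / 2) = Real.arctan τ := by ring
    rw [h2]
    have h3 : Real.sin (Real.arctan τ) = τ * Real.cos (Real.arctan τ) := by
      rw [Real.sin_arctan, Real.cos_arctan]
      ring
    rw [sn, h3]
    intro h0
    have h4 : ((u i).re * τ - (u i).im) * Real.cos (Real.arctan τ) = 0 := by linarith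
    rcases mul_eq_zero.1 h4 with h5 | h5
    · by_cases hre : (u i).re = 0
      · rw [hre, zero_mul, zero_sub, neg_eq_zero] at h5
        exact hu i (Complex.ext hre h5)
      · apply hτ
        rw [Finset.mem_image]
        refine ⟨i, Finset.mem_univ _, ?_⟩
        rw [div_eq_iff hre]
        linarith
    · exact hcos.ne' h5
  have hcos2 : 0 < Real.cos (Real.arctan τ / 2) := by
    have h1 := Real.neg_pi_div_two_lt_arctan τ
    have h2 := Real.arctan_lt_pi_div_two τ
    apply Real.cos_pos_of_mem_Ioo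
    constructor <;> linarith [Real.pi_pos]
  refine ⟨Real.arctan τ / 2, ?_⟩
  rw [B_add_pi, B]
  intro h0
  have hprod : ∏ i, (sn (u i) (2 * (Real.arctan τ / 2))) ^ 2 ≠ 0 :=
    Finset.prod_ne_zero_iff.2 fun i _ => pow_ne_zero 2 (h i)
  have h5 := mul_right_cancel₀ hprod h0
  linarith

/-- the curve -/
noncomputable def curve (u : Fin k → ℂ) (ε θ : ℝ) : ℂ :=
  Complex.exp (((-(ε * B u θ) : ℝ) : ℂ) + ((2 * θ : ℝ) : ℂ) * Complex.I)

theorem curve_analysis (u : Fin k → ℂ) (hu : ∀ i, u i ≠ 0) {ε : ℝ} (hε : 0 < ε) {z z' : ℝ → ℂ}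
    (hz : ∀ t, HasDerivAt z (z' t) t) (hc : Continuous z') (hper : Function.Periodic z (2 * π))
    (hne : ∀ t, z' t ≠ 0) (hrange : range z = range (curve u ε)) :
    ∃ (ρ ψ ψ' : ℝ → ℝ) (σ : ℝ) (w : ℤ), (∀ t, Complex.exp (ρ t + ψ t * Complex.I) = z t) ∧
      Continuous ψ ∧ ψ (2 * π) = ψ 0 + w * (2 * π) ∧ (σ = 1 ∨ σ = -1) ∧ 2 ≤ σ * w ∧
      (∀ t, 0 < σ * ψ' t) ∧
      ∀ t, ∃ ϑ, (∀ i, sn (u i) (2 * ϑ) = sn (u i) (ψ t)) ∧
        (∀ i, cs (u i) (2 * ϑ) = cs (u i) (ψ t)) ∧ ρ t = -(ε * B u ϑ) ∧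
        z' t = z t * (((-(ε * (deriv (B u) ϑ * (ψ' t / 2))) : ℝ) : ℂ) +
          ((ψ' t : ℝ) : ℂ) * Complex.I) := by
  have hmem : ∀ t, ∃ θ, curve u ε θ = z t := fun t => by
    have : z t ∈ range (curve u ε) := hrange ▸ mem_range_self t
    exact this
  have hz0 : ∀ t, z t ≠ 0 := fun t => by
    obtain ⟨θ, hθ⟩ := hmem t
    rw [← hθ]
    exact Complex.exp_ne_zero _
  obtain ⟨L, hL, hexp⟩ := exists_real_log hz hc hz0
  have hdiv : ∀ t, z' t = z t * (z' t / z t) := fun t => by
    field_simp [hz0 t]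
  -- real and imaginary parts
  have hρ : ∀ t, HasDerivAt (fun t => (L t).re) (z' t / z t).re t := fun t =>
    Complex.reCLM.hasFDerivAt.comp_hasDerivAt t (hL t)
  have hψ : ∀ t, HasDerivAt (fun t => (L t).im) (z' t / z t).im t := fun t =>
    Complex.imCLM.hasFDerivAt.comp_hasDerivAt t (hL t)
  have hBd : ∀ θ, HasDerivAt (B u) (deriv (B u) θ) θ := fun θ =>
    ((contDiff_B u).differentiable (by simp) θ).hasDerivAt
  -- the two branches
  have hlift : ∀ t θ, curve u ε θ = z t → ∃ m : ℤ, (L t).re = -(ε * B u θ) ∧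
      (L t).im = 2 * θ + m * (2 * π) := by
    intro t θ hθ
    rw [curve, ← hexp t, Complex.exp_eq_exp_iff_exists_int] at hθ
    obtain ⟨n, hn⟩ := hθ
    refine ⟨-n, ?_, ?_⟩
    · have := congrArg Complex.re hn
      simp at this
      linarith
    · have := congrArg Complex.im hn
      simp at this
      push_cast
      linarith
  have htwo : ∀ t, (L t).re = -(ε * B u ((L t).im / 2)) ∨
      (L t).re = -(ε * B u ((L t).im / 2 + π)) := by
    intro t
    obtain ⟨θ, hθ⟩ := hmem t
    obtain ⟨m, h1, h2⟩ := hlift t θ hθ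
    rcases Int.even_or_odd' m with ⟨q, hq | hq⟩
    · left
      rw [h1, h2, hq]
      have := B_add u θ q
      rw [← this]
      congr 3
      push_cast
      ring
    · right
      rw [h1, h2, hq]
      have := B_add u θ (q + 1)
      rw [← this]
      congr 3
      push_cast
      ring
  have hbr : ∀ t, ∃ ϑ, (∀ i, sn (u i) (2 * ϑ) = sn (u i) (L t).im) ∧
      (∀ i, cs (u i) (2 * ϑ) = cs (u i) (L t).im) ∧ (L t).re = -(ε * B u ϑ) ∧
      (z' t / z t).re = -(ε * (deriv (B u) ϑ * ((z' t / z t).im / 2))) := by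
    intro t
    have h1 : HasDerivAt (fun s => -(ε * B u ((L s).im / 2)))
        (-(ε * (deriv (B u) ((L t).im / 2) * ((z' t / z t).im / 2)))) t :=
      (((hBd _).comp t ((hψ t).div_const 2)).const_mul ε).neg
    have h2 : HasDerivAt (fun s => -(ε * B u ((L s).im / 2 + π)))
        (-(ε * (deriv (B u) ((L t).im / 2 + π) * ((z' t / z t).im / 2)))) t :=
      (((hBd _).comp t (((hψ t).div_const 2).add_const π)).const_mul ε).neg
    rcases branch (hρ t) h1 h2 htwo with ⟨h3, h4⟩ | ⟨h3, h4⟩
    · refine ⟨(L t).im / 2, fun i => ?_, fun i => ?_, h3, h4⟩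
      · congr 1
        ring
      · congr 1
        ring
    · refine ⟨(L t).im / 2 + π, fun i => ?_, fun i => ?_, h3, h4⟩
      · rw [← sn_add (u i) (L t).im 1]
        congr 1
        push_cast
        ring
      · rw [← cs_add (u i) (L t).im 1]
        congr 1
        push_cast
        ring
  have hψ0 : ∀ t, (z' t / z t).im ≠ 0 := by
    intro t h0
    obtain ⟨ϑ, -, -, -, h⟩ := hbr t
    rw [h0] at h
    have h1 : z' t / z t = 0 := Complex.ext (by simpa using h) h0
    rcases div_eq_zero_iff.1 h1 with h2 | h2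
    · exact hne t h2
    · exact hz0 t h2
  have hzc : Continuous z := continuous_iff_continuousAt.2 fun t => (hz t).continuousAt
  have hψ'c : Continuous fun t => (z' t / z t).im := Complex.continuous_im.comp (hc.div hzc hz0)
  -- the sign
  obtain ⟨σ, hσ, hpos⟩ : ∃ σ : ℝ, (σ = 1 ∨ σ = -1) ∧ ∀ t, 0 < σ * (z' t / z t).im := by
    rcases lt_or_gt_of_ne (hψ0 0) with h0 | h0
    · refine ⟨-1, Or.inr rfl, fun t => ?_⟩
      rcases lt_or_gt_of_ne (hψ0 t) with ht | ht
      · linarith
      · exfalso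
        obtain ⟨x, hx⟩ := mem_range_of_exists_le_of_exists_ge hψ'c ⟨0, h0.le⟩ ⟨t, ht.le⟩
        exact hψ0 x hx
    · refine ⟨1, Or.inl rfl, fun t => ?_⟩
      rcases lt_or_gt_of_ne (hψ0 t) with ht | ht
      · exfalso
        obtain ⟨x, hx⟩ := mem_range_of_exists_le_of_exists_ge hψ'c ⟨t, ht.le⟩ ⟨0, h0.le⟩
        exact hψ0 x hx
      · linarith
  -- the periods
  have hz'per : Function.Periodic z' (2 * π) := by
    intro t
    have h1 : HasDerivAt (fun t => z (t + 2 * π)) (z' (t + 2 * π)) t := by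
      simpa using (hz (t + 2 * π)).comp_add_const t (2 * π)
    have h2 : (fun t => z (t + 2 * π)) = z := funext hper
    rw [h2] at h1
    exact h1.unique (hz t)
  obtain ⟨w, hw⟩ : ∃ w : ℤ, ∀ t, L (t + 2 * π) = L t + w * (2 * π * Complex.I) := by
    have h1 : ∀ t, HasDerivAt (fun t => L (t + 2 * π) - L t) 0 t := by
      intro t
      have h2 : HasDerivAt (fun t => L (t + 2 * π)) (z' (t + 2 * π) / z (t + 2 * π)) t := by
        simpa using (hL (t + 2 * π)).comp_add_const t (2 * π)
      have h3 := h2.sub (hL t)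
      rw [hz'per, hper, sub_self] at h3
      exact h3
    have hconst := is_const_of_deriv_eq_zero (fun t => (h1 t).differentiableAt)
      (fun t => (h1 t).deriv)
    have h4 : Complex.exp (L (0 + 2 * π)) = Complex.exp (L 0) := by
      rw [hexp, hexp, hper]
    rw [Complex.exp_eq_exp_iff_exists_int] at h4
    obtain ⟨w, hw⟩ := h4
    refine ⟨w, fun t => ?_⟩
    have := hconst t 0
    rw [hw] at this
    linear_combination this
  have hwim : ∀ t, (L (t + 2 * π)).im = (L t).im + w * (2 * π) := by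
    intro t
    rw [hw]
    simp
  have hmono : StrictMono fun t => σ * (L t).im :=
    strictMono_of_deriv_pos fun t => by
      rw [((hψ t).const_mul σ).deriv]
      exact hpos t
  have hpi := Real.pi_pos
  have hWpos : 0 < σ * w := by
    have h1 := hmono (show (0 : ℝ) < 0 + 2 * π by linarith)
    simp only [hwim] at h1
    have h2 : 0 < (σ * w) * (2 * π) := by nlinarith
    exact pos_of_mul_pos_left h2 (by linarith)
  have hW : 2 ≤ σ * w := by
    by_contra hlt
    push Not at hlt
    -- the winding number is one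
    have hw1 : (w : ℝ) = σ := by
      rcases hσ with rfl | rfl
      · have h1 : (0 : ℝ) < w := by linarith
        have h2 : (w : ℝ) < 2 := by linarith
        have h3 : 0 < w := by exact_mod_cast h1
        have h4 : w < 2 := by exact_mod_cast h2
        have h5 : w = 1 := by omega
        rw [h5]
        simp
      · have h1 : (w : ℝ) < 0 := by linarith
        have h2 : (-2 : ℝ) < w := by linarith
        have h3 : w < 0 := by exact_mod_cast h1
        have h4 : -2 < w := by exact_mod_cast h2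
        have h5 : w = -1 := by omega
        rw [h5]
        simp
    obtain ⟨θ, hθ⟩ := exists_strands u hu
    obtain ⟨t₁, ht₁⟩ : curve u ε θ ∈ range z := hrange ▸ mem_range_self θ
    obtain ⟨t₂, ht₂⟩ : curve u ε (θ + π) ∈ range z := hrange ▸ mem_range_self (θ + π)
    obtain ⟨m₁, h1, h2⟩ := hlift t₁ θ ht₁.symm
    obtain ⟨m₂, h3, h4⟩ := hlift t₂ (θ + π) ht₂.symm
    -- all lifts of the angle
    have hperψ : Function.Periodic (fun t => (L t).im - w * t) (2 * π) := by
      intro t
      simp only [hwim]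
      ring
    obtain ⟨q, hq⟩ : ∃ q : ℤ, (q : ℝ) * σ = m₁ - m₂ - 1 := by
      rcases hσ with rfl | rfl
      · exact ⟨m₁ - m₂ - 1, by push_cast; ring⟩
      · exact ⟨-(m₁ - m₂ - 1), by push_cast; ring⟩
    have h5 := hperψ.int_mul q t₂
    have h6 : (L (t₂ + q * (2 * π))).im = (L t₁).im := by
      have : (L (t₂ + q * (2 * π))).im = (L t₂).im + (q * σ) * (2 * π) := by
        rw [hw1] at h5
        linarith
      rw [this, hq, h2, h4]
      ring
    have h7 : t₂ + q * (2 * π) = t₁ := hmono.injective (by simp only [h6])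
    have h8 : z t₂ = z t₁ := by
      rw [← h7]
      exact (hper.int_mul q t₂).symm
    have h9 : (L t₂).re = (L t₁).re := by
      have e1 := congrArg norm (hexp t₁)
      have e2 := congrArg norm (hexp t₂)
      rw [Complex.norm_exp] at e1 e2
      rw [h8, ← e1] at e2
      exact Real.exp_injective e2
    rw [h1, h3] at h9
    apply hθ
    have : ε * (B u (θ + π) - B u θ) = 0 := by linarith
    rcases mul_eq_zero.1 this with h | h
    · exact absurd h hε.ne'
    · linarith
  refine ⟨fun t => (L t).re, fun t => (L t).im, fun t => (z' t / z t).im, σ, w, fun t => ?_,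
    ?_, ?_, hσ, hW, hpos, fun t => ?_⟩
  · rw [Complex.re_add_im, hexp]
  · exact continuous_iff_continuousAt.2 fun t => (hψ t).continuousAt
  · have := hwim 0
    rw [zero_add] at this
    exact this
  · obtain ⟨ϑ, h1, h2, h3, h4⟩ := hbr t
    refine ⟨ϑ, h1, h2, h3, ?_⟩
    simp only
    rw [← h4, Complex.re_add_im]
    exact hdiv t

/-! ### The plane of the frame -/

/-- the first basis vector of the plane -/
noncomputable def b₁ (s : ℝ) : E3 := !₂[1, s, s ^ 2]

/-- the second basis vector of the plane -/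
noncomputable def b₂ : E3 := !₂[0, 1, 0]

/-- the parametrization of the plane of the frame -/
noncomputable def J (s : ℝ) : ℂ →L[ℝ] E3 :=
  Complex.reCLM.smulRight (b₁ s) + Complex.imCLM.smulRight b₂

/-- a left inverse of `J s` -/
noncomputable def P (s : ℝ) : E3 →L[ℝ] ℂ :=
  (EuclideanSpace.proj (0 : Fin 3) : E3 →L[ℝ] ℝ).smulRight (1 - (s : ℂ) * Complex.I) +
    (EuclideanSpace.proj (1 : Fin 3) : E3 →L[ℝ] ℝ).smulRight Complex.I

theorem P_J (s : ℝ) (z : ℂ) : P s (J s z) = z := by
  apply Complex.ext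
  · simp [P, J, b₁, b₂]
  · simp [P, J, b₁, b₂]

theorem J_injective (s : ℝ) : Function.Injective (J s) :=
  Function.LeftInverse.injective (P_J s)

/-- the complex number which describes the restriction of `⟪·, ξ⟫` to the plane -/
noncomputable def uu (s : ℝ) (ξ : E3) : ℂ := ⟨⟪b₁ s, ξ⟫_ℝ, ⟪b₂, ξ⟫_ℝ⟩

theorem inner_J (s : ℝ) (ξ : E3) (z : ℂ) :
    ⟪J s z, ξ⟫_ℝ = (z * (starRingEnd ℂ) (uu s ξ)).re := by
  simp [J, uu, inner_add_left, inner_smul_left]

theorem exists_plane (ξ : Fin k → E3) (hξ : ∀ i, ξ i ≠ 0) : ∃ s : ℝ, ∀ i, uu s (ξ i) ≠ 0 := by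
  classical
  let p : Fin k → Polynomial ℝ := fun i =>
    Polynomial.C (ξ i 0) + Polynomial.C (ξ i 1) * Polynomial.X +
      Polynomial.C (ξ i 2) * Polynomial.X ^ 2
  have hp : ∀ i, p i ≠ 0 := by
    intro i h
    apply hξ i
    ext j
    fin_cases j
    · have := congrArg (fun q => Polynomial.coeff q 0) h
      simpa [p, Polynomial.coeff_X] using this
    · have := congrArg (fun q => Polynomial.coeff q 1) h
      simpa [p, Polynomial.coeff_X, Polynomial.coeff_X_pow] using this
    · have := congrArg (fun q => Polynomial.coeff q 2) h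
      simpa [p, Polynomial.coeff_X, Polynomial.coeff_X_pow] using this
  obtain ⟨s, hs⟩ := Infinite.exists_notMem_finset (∏ i, p i).roots.toFinset
  refine ⟨s, fun i h => ?_⟩
  have h1 : (p i).eval s = 0 := by
    have := congrArg Complex.re h
    simp only [uu, Complex.zero_re] at this
    rw [← this]
    simp [p, b₁, PiLp.inner_apply, Fin.sum_univ_three]
  apply hs
  rw [Multiset.mem_toFinset, Polynomial.mem_roots (Finset.prod_ne_zero_iff.2 fun i _ => hp i),
    Polynomial.IsRoot.def, Polynomial.eval_prod]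
  exact Finset.prod_eq_zero (Finset.mem_univ i) h1

theorem hasDerivAt_curve (u : Fin k → ℂ) (ε θ : ℝ) :
    HasDerivAt (curve u ε) (curve u ε θ *
      (((-(ε * deriv (B u) θ) : ℝ) : ℂ) + ((2 : ℝ) : ℂ) * Complex.I)) θ := by
  have hBd : HasDerivAt (B u) (deriv (B u) θ) θ :=
    ((contDiff_B u).differentiable (by simp) θ).hasDerivAt
  have h1 : HasDerivAt (fun θ => ((-(ε * B u θ) : ℝ) : ℂ)) ((-(ε * deriv (B u) θ) : ℝ) : ℂ) θ :=
    (hBd.const_mul ε).neg.ofReal_comp
  have h2 : HasDerivAt (fun θ : ℝ => ((2 * θ : ℝ) : ℂ) * Complex.I) (((2 : ℝ) : ℂ) * Complex.I) θ := by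
    have : HasDerivAt (fun θ : ℝ => 2 * θ) 2 θ := by
      simpa using (hasDerivAt_id θ).const_mul (2 : ℝ)
    exact this.ofReal_comp.mul_const _
  exact (h1.add h2).cexp

theorem isFrame_curve (u : Fin k → ℂ) (ε s : ℝ) : IsFrame (range fun θ => J s (curve u ε θ)) := by
  refine ⟨fun θ => J s (curve u ε θ), ?_, ?_, ?_, rfl⟩
  · refine (J s).contDiff.comp ?_
    unfold curve
    refine Complex.contDiff_exp.comp ?_
    have h1 := contDiff_B u
    have h2 : ContDiff ℝ ∞ fun θ : ℝ => ((-(ε * B u θ) : ℝ) : ℂ) :=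
      Complex.ofRealCLM.contDiff.comp (contDiff_const.mul h1).neg
    have h3 : ContDiff ℝ ∞ fun θ : ℝ => ((2 * θ : ℝ) : ℂ) * Complex.I :=
      (Complex.ofRealCLM.contDiff.comp (contDiff_const.mul contDiff_id)).mul contDiff_const
    exact h2.add h3
  · intro θ
    simp only
    congr 1
    unfold curve
    have h1 := B_add u θ 1
    rw [Int.cast_one, one_mul] at h1
    rw [h1, Complex.exp_eq_exp_iff_exists_int]
    refine ⟨2, ?_⟩
    push_cast
    ring
  · intro θ h0
    have h1 : HasDerivAt (fun θ => J s (curve u ε θ)) _ θ :=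
      (J s).hasFDerivAt.comp_hasDerivAt θ (hasDerivAt_curve u ε θ)
    rw [h1.deriv] at h0
    have h2 := J_injective s (h0.trans (map_zero (J s)).symm)
    rcases mul_eq_zero.1 h2 with h3 | h3
    · exact Complex.exp_ne_zero _ h3
    · have := congrArg Complex.im h3
      simp at this

/-! ### The disk -/

theorem uniqueDiffOn_disk : UniqueDiffOn ℝ (closedBall (0 : ℂ) 1) :=
  uniqueDiffOn_convex (convex_closedBall 0 1) (by
    rw [interior_closedBall _ one_ne_zero]
    exact ⟨0, by simp⟩)

theorem exp_mem_sphere (t : ℝ) : Complex.exp (t * Complex.I) ∈ sphere (0 : ℂ) 1 := by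
  rw [mem_sphere_zero_iff_norm, Complex.norm_exp_ofReal_mul_I]

theorem exp_mem_disk (t : ℝ) : Complex.exp (t * Complex.I) ∈ closedBall (0 : ℂ) 1 :=
  sphere_subset_closedBall (exp_mem_sphere t)

theorem exists_of_mem_sphere {x : ℂ} (hx : x ∈ sphere (0 : ℂ) 1) :
    ∃ t : ℝ, x = Complex.exp (t * Complex.I) := by
  refine ⟨x.arg, ?_⟩
  have := Complex.norm_mul_exp_arg_mul_I x
  rw [mem_sphere_zero_iff_norm.1 hx] at this
  simpa using this.symm

/-- A linear functional on `ℂ` in terms of its gradient. -/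
theorem functional_eq (D : ℂ →L[ℝ] ℝ) (v : ℂ) :
    D v = ((starRingEnd ℂ) (⟨D 1, D Complex.I⟩ : ℂ) * v).re := by
  have h : v = v.re • (1 : ℂ) + v.im • Complex.I := by
    apply Complex.ext <;> simp
  conv_lhs => rw [h]
  rw [map_add, map_smul, map_smul]
  simp
  ring

/-- the differential of the height function -/
noncomputable def dh (H : ℂ → E3) (ξ : E3) (x : ℂ) : ℂ →L[ℝ] ℝ :=
  (innerSL ℝ ξ).comp (fderivWithin ℝ H (closedBall 0 1) x)

theorem dh_apply (H : ℂ → E3) (ξ : E3) (x v : ℂ) :
    dh H ξ x v = ⟪fderivWithin ℝ H (closedBall 0 1) x v, ξ⟫_ℝ := by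
  rw [dh, ContinuousLinearMap.comp_apply, innerSL_apply_apply, real_inner_comm]

theorem hasFDerivWithinAt_height {H : ℂ → E3} {l : Set E3} (hH : IsMembrane l H) (ξ : E3) {x : ℂ}
    (hx : x ∈ closedBall (0 : ℂ) 1) :
    HasFDerivWithinAt (fun y => ⟪ξ, H y⟫_ℝ) (dh H ξ x) (closedBall 0 1) x := by
  have h1 : HasFDerivWithinAt H (fderivWithin ℝ H (closedBall 0 1) x) (closedBall 0 1) x :=
    (hH.smooth.differentiableOn (by simp) x hx).hasFDerivWithinAt
  exact (innerSL ℝ ξ).hasFDerivAt.comp_hasFDerivWithinAt x h1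

/-- If the height function has no critical point in the closed disk and its values on the boundary
circle are at most `M`, then it is at most `M`, and at points of the circle where it is equal to `M`
its radial derivative is nonnegative. (Applied to `ξ` and `-ξ`.) -/
theorem height_max {H : ℂ → E3} {l : Set E3} (hH : IsMembrane l H) (ξ : E3)
    (hne : ∀ x ∈ closedBall (0 : ℂ) 1, dh H ξ x ≠ 0) {M : ℝ}
    (hM : ∀ x ∈ sphere (0 : ℂ) 1, ⟪ξ, H x⟫_ℝ ≤ M) {x : ℂ} (hx : x ∈ sphere (0 : ℂ) 1)
    (hxM : ⟪ξ, H x⟫_ℝ = M) : 0 ≤ dh H ξ x x := by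
  have hcont : ContinuousOn (fun y => ⟪ξ, H y⟫_ℝ) (closedBall (0 : ℂ) 1) := fun y hy =>
    (hasFDerivWithinAt_height hH ξ hy).continuousWithinAt
  obtain ⟨x₀, hx₀, hmax⟩ := (isCompact_closedBall (0 : ℂ) 1).exists_isMaxOn ⟨0, by simp⟩ hcont
  have hle : ∀ y ∈ closedBall (0 : ℂ) 1, ⟪ξ, H y⟫_ℝ ≤ M := by
    intro y hy
    refine (hmax hy).trans ?_
    by_cases hs : x₀ ∈ sphere (0 : ℂ) 1
    · exact hM _ hs
    · exfalso
      have hb : x₀ ∈ ball (0 : ℂ) 1 := by
        rw [mem_closedBall] at hx₀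
        rw [mem_sphere] at hs
        exact mem_ball.2 (lt_of_le_of_ne hx₀ hs)
      have hnhds : closedBall (0 : ℂ) 1 ∈ 𝓝 x₀ :=
        mem_of_superset (isOpen_ball.mem_nhds hb) ball_subset_closedBall
      have h1 : HasFDerivAt (fun y => ⟪ξ, H y⟫_ℝ) (dh H ξ x₀) x₀ :=
        (hasFDerivWithinAt_height hH ξ hx₀).hasFDerivAt hnhds
      have h2 : IsLocalMax (fun y => ⟪ξ, H y⟫_ℝ) x₀ := hmax.isLocalMax hnhds
      exact hne x₀ hx₀ (h2.hasFDerivAt_eq_zero h1)
  have hxd := sphere_subset_closedBall hx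
  have hloc : IsLocalMaxOn (fun y => ⟪ξ, H y⟫_ℝ) (closedBall (0 : ℂ) 1) x := by
    refine IsMaxOn.localize ?_
    intro y hy
    change ⟪ξ, H y⟫_ℝ ≤ ⟪ξ, H x⟫_ℝ
    rw [hxM]
    exact hle y hy
  have hseg : segment ℝ x (x + -x) ⊆ closedBall (0 : ℂ) 1 :=
    (convex_closedBall (0 : ℂ) 1).segment_subset hxd (by simp)
  have := hloc.hasFDerivWithinAt_nonpos (hasFDerivWithinAt_height hH ξ hxd)
    (mem_posTangentConeAt_of_segment_subset hseg)
  rw [map_neg] at this
  linarith

theorem exp_mul_conj (u : ℂ) (r α : ℝ) :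
    Complex.exp (r + α * Complex.I) * (starRingEnd ℂ) u =
      (Real.exp r : ℂ) * ((cs u α : ℂ) + (sn u α : ℂ) * Complex.I) := by
  have h : Complex.exp (r + α * Complex.I) = ((Real.exp r * Real.cos α : ℝ) : ℂ) +
      ((Real.exp r * Real.sin α : ℝ) : ℂ) * Complex.I := by
    push_cast
    rw [Complex.exp_add, Complex.exp_mul_I]
    ring
  rw [h, cs, sn]
  apply Complex.ext
  · simp only [Complex.mul_re, Complex.add_re, Complex.ofReal_re, Complex.add_im,
      Complex.ofReal_im, Complex.I_re, Complex.I_im, Complex.mul_im, Complex.conj_re,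
      Complex.conj_im]
    ring
  · simp only [Complex.mul_re, Complex.add_re, Complex.ofReal_re, Complex.add_im,
      Complex.ofReal_im, Complex.I_re, Complex.I_im, Complex.mul_im, Complex.conj_re,
      Complex.conj_im]
    ring

theorem re_conj_exp (γ : ℂ) (t : ℝ) :
    ((starRingEnd ℂ) (Complex.exp γ) * Complex.exp (t * Complex.I)).re =
      Real.exp γ.re * Real.cos (γ.im - t) := by
  rw [← Complex.exp_conj, ← Complex.exp_add, Complex.exp_re]
  simp only [Complex.add_re, Complex.conj_re, Complex.mul_re, Complex.ofReal_re, Complex.I_re,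
    Complex.ofReal_im, Complex.I_im, Complex.add_im, Complex.conj_im, Complex.mul_im]
  rw [← Real.cos_neg]
  congr 2 <;> ring

theorem re_conj_exp_I (γ : ℂ) (t : ℝ) :
    ((starRingEnd ℂ) (Complex.exp γ) * (Complex.exp (t * Complex.I) * Complex.I)).re =
      Real.exp γ.re * Real.sin (γ.im - t) := by
  rw [← mul_assoc, ← Complex.exp_conj, ← Complex.exp_add, Complex.mul_re, Complex.exp_re,
    Complex.exp_im]
  simp only [Complex.add_re, Complex.conj_re, Complex.mul_re, Complex.ofReal_re, Complex.I_re,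
    Complex.ofReal_im, Complex.I_im, Complex.add_im, Complex.conj_im, Complex.mul_im]
  have : γ.im - t = -(-γ.im + (t * 1 + 0 * 0)) := by ring
  rw [this, Real.sin_neg]
  ring_nf

theorem exists_critical (s : ℝ) (ξ : Fin k → E3) (hu : ∀ i, uu s (ξ i) ≠ 0) {ε K : ℝ}
    (hε : 0 < ε)
    (hK : ∀ i θ, |deriv (B fun i => uu s (ξ i)) θ * cs (uu s (ξ i)) (2 * θ)| ≤
      K * |sn (uu s (ξ i)) (2 * θ)|) (hεK : ε * K ≤ 1) {H : ℂ → E3}
    (hH : IsMembrane (range fun θ => J s (curve (fun i => uu s (ξ i)) ε θ)) H) (i : Fin k) :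
    ∃ x ∈ closedBall (0 : ℂ) 1, dh H (ξ i) x = 0 := by
  by_contra hcon
  push Not at hcon
  set u : Fin k → ℂ := fun i => uu s (ξ i) with hudef
  have hpi := Real.pi_pos
  -- the boundary curve
  let e : ℝ → ℂ := fun t => Complex.exp (t * Complex.I)
  have hed : ∀ t, HasDerivAt e (e t * Complex.I) t := by
    intro t
    have := ((hasDerivAt_id t).ofReal_comp.mul_const Complex.I).cexp
    simpa [e] using this
  have hec : Continuous e := continuous_iff_continuousAt.2 fun t => (hed t).continuousAt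
  have hes : ∀ t, e t ∈ sphere (0 : ℂ) 1 := exp_mem_sphere
  have heb : ∀ t, e t ∈ closedBall (0 : ℂ) 1 := exp_mem_disk
  let c' : ℝ → E3 := fun t => fderivWithin ℝ H (closedBall 0 1) (e t) (e t * Complex.I)
  have hc : ∀ t, HasDerivAt (fun t => H (e t)) (c' t) t := by
    intro t
    have h1 : HasFDerivWithinAt H (fderivWithin ℝ H (closedBall 0 1) (e t)) (closedBall 0 1)
        (e t) := (hH.smooth.differentiableOn (by simp) _ (heb t)).hasFDerivWithinAt
    exact h1.comp_hasDerivAt t (hed t) (Eventually.of_forall heb)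
  have hfd : ContinuousOn (fun x => fderivWithin ℝ H (closedBall 0 1) x) (closedBall 0 1) :=
    hH.smooth.continuousOn_fderivWithin uniqueDiffOn_disk (by simp)
  have hc'c : Continuous c' :=
    (hfd.comp_continuous hec heb).clm_apply (hec.mul continuous_const)
  -- its coordinate
  let z : ℝ → ℂ := fun t => P s (H (e t))
  let z' : ℝ → ℂ := fun t => P s (c' t)
  have hbd : ∀ t, ∃ θ, H (e t) = J s (curve u ε θ) := by
    intro t
    have h1 : H (e t) ∈ H '' sphere 0 1 := mem_image_of_mem _ (hes t)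
    rw [hH.boundary] at h1
    obtain ⟨θ, hθ⟩ := h1
    exact ⟨θ, hθ.symm⟩
  have hJz : ∀ t, J s (z t) = H (e t) := by
    intro t
    obtain ⟨θ, hθ⟩ := hbd t
    simp only [z]
    rw [hθ, P_J]
  have hz : ∀ t, HasDerivAt z (z' t) t := fun t =>
    (P s).hasFDerivAt.comp_hasDerivAt t (hc t)
  have hz'c : Continuous z' := (P s).continuous.comp hc'c
  have hJz' : ∀ t, J s (z' t) = c' t := by
    intro t
    have h1 : HasDerivAt (fun t => J s (z t)) (J s (z' t)) t :=
      (J s).hasFDerivAt.comp_hasDerivAt t (hz t)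
    have h2 : (fun t => J s (z t)) = fun t => H (e t) := funext hJz
    rw [h2] at h1
    exact h1.unique (hc t)
  have hper : Function.Periodic z (2 * π) := by
    intro t
    have : e (t + 2 * π) = e t := by
      simp only [e]
      rw [Complex.exp_eq_exp_iff_exists_int]
      exact ⟨1, by push_cast; ring⟩
    simp only [z, this]
  have hne' : ∀ t, z' t ≠ 0 := by
    intro t h0
    have h1 : c' t = 0 := by rw [← hJz', h0, map_zero]
    have h2 := hH.immersion (e t) (heb t) (h1.trans (map_zero _).symm)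
    rcases mul_eq_zero.1 h2 with h3 | h3
    · exact Complex.exp_ne_zero _ h3
    · exact Complex.I_ne_zero h3
  have hrange : range z = range (curve u ε) := by
    ext y
    constructor
    · rintro ⟨t, rfl⟩
      obtain ⟨θ, hθ⟩ := hbd t
      refine ⟨θ, ?_⟩
      simp only [z]
      rw [hθ, P_J]
    · rintro ⟨θ, rfl⟩
      have h1 : J s (curve u ε θ) ∈ H '' sphere 0 1 := by
        rw [hH.boundary]
        exact ⟨θ, rfl⟩
      obtain ⟨x, hx, hxθ⟩ := h1
      obtain ⟨t, rfl⟩ := exists_of_mem_sphere hx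
      refine ⟨t, ?_⟩
      simp only [z, e]
      rw [hxθ, P_J]
  obtain ⟨ρ, ψ, ψ', σ, w, hexp, hψc, hψper, hσ, hW, hpos, hbr⟩ :=
    curve_analysis u hu hε hz hz'c hper hne' hrange
  -- the gradient
  let V : ℂ → ℂ := fun x => ⟨dh H (ξ i) x 1, dh H (ξ i) x Complex.I⟩
  have hVc : ContinuousOn V (closedBall 0 1) := by
    have h1 : ∀ v : ℂ, ContinuousOn (fun x => dh H (ξ i) x v) (closedBall 0 1) := by
      intro v
      have : ContinuousOn (fun x => innerSL ℝ (ξ i) (fderivWithin ℝ H (closedBall 0 1) x v))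
          (closedBall 0 1) :=
        (innerSL ℝ (ξ i)).continuous.comp_continuousOn (hfd.clm_apply continuousOn_const)
      exact this
    have h2 : V = fun x => ((dh H (ξ i) x 1 : ℝ) : ℂ) + ((dh H (ξ i) x Complex.I : ℝ) : ℂ) *
        Complex.I := by
      funext x
      apply Complex.ext <;> simp [V]
    rw [h2]
    exact (Complex.continuous_ofReal.comp_continuousOn (h1 1)).add
      ((Complex.continuous_ofReal.comp_continuousOn (h1 Complex.I)).mul continuousOn_const)
  have hV0 : ∀ x ∈ closedBall (0 : ℂ) 1, V x ≠ 0 := by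
    intro x hx h0
    apply hcon x hx
    refine ContinuousLinearMap.ext fun v => ?_
    rw [functional_eq]
    change ((starRingEnd ℂ) (V x) * _).re = _
    rw [h0]
    simp
  -- its logarithm
  let r : ℂ → ℂ := fun x => (max 1 ‖x‖)⁻¹ • x
  have hrc : Continuous r := by
    have : Continuous fun x : ℂ => (max 1 ‖x‖)⁻¹ :=
      (continuous_const.max continuous_norm).inv₀ fun x => by positivity
    exact this.smul continuous_id
  have hrm : ∀ x, r x ∈ closedBall (0 : ℂ) 1 := by
    intro x
    rw [mem_closedBall_zero_iff]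
    simp only [r]
    rw [norm_smul, norm_inv, Real.norm_eq_abs, abs_of_pos (by positivity), inv_mul_le_iff₀
      (by positivity), mul_one]
    exact le_max_right _ _
  have hri : ∀ x ∈ closedBall (0 : ℂ) 1, r x = x := by
    intro x hx
    rw [mem_closedBall_zero_iff] at hx
    simp only [r]
    rw [max_eq_left hx, inv_one, one_smul]
  obtain ⟨g, hgc, hg⟩ := exists_log (V := fun x => V (r x)) (hVc.comp_continuous hrc hrm)
    (fun x => hV0 _ (hrm x))
  have hgV : ∀ t, V (e t) = Complex.exp (g (e t)) := by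
    intro t
    rw [hg, hri _ (heb t)]
  have hfr : ∀ t, dh H (ξ i) (e t) (e t) =
      Real.exp (g (e t)).re * Real.cos ((g (e t)).im - t) := by
    intro t
    rw [functional_eq]
    change ((starRingEnd ℂ) (V (e t)) * _).re = _
    rw [hgV]
    exact re_conj_exp _ _
  have hfθ : ∀ t, dh H (ξ i) (e t) (e t * Complex.I) =
      Real.exp (g (e t)).re * Real.sin ((g (e t)).im - t) := by
    intro t
    rw [functional_eq]
    change ((starRingEnd ℂ) (V (e t)) * _).re = _
    rw [hgV]
    exact re_conj_exp_I _ _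
  -- the height along the boundary and its derivative
  have hφ : ∀ t, ⟪ξ i, H (e t)⟫_ℝ = Real.exp (ρ t) * cs (u i) (ψ t) := by
    intro t
    rw [real_inner_comm, ← hJz, inner_J, ← hexp, re_exp_mul]
  have hρ0 : ∀ t, ρ t ≤ 0 := by
    intro t
    obtain ⟨ϑ, -, -, h, -⟩ := hbr t
    rw [h]
    have := mul_nonneg hε.le (B_nonneg u ϑ)
    linarith
  have hφ' : ∀ t, ∃ b : ℝ, |b| ≤ K * |sn (u i) (ψ t)| ∧ dh H (ξ i) (e t) (e t * Complex.I) =
      -(Real.exp (ρ t) * ψ' t * (ε / 2 * b + sn (u i) (ψ t))) := by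
    intro t
    obtain ⟨ϑ, h1, h2, h3, h4⟩ := hbr t
    refine ⟨deriv (B u) ϑ * cs (u i) (ψ t), ?_, ?_⟩
    · rw [← h1, ← h2]
      exact hK i ϑ
    · rw [dh_apply]
      change ⟪c' t, ξ i⟫_ℝ = _
      rw [← hJz', inner_J, h4, ← hexp, mul_right_comm]
      change (Complex.exp (ρ t + ψ t * Complex.I) * (starRingEnd ℂ) (u i) * _).re = _
      rw [exp_mul_conj]
      simp only [Complex.mul_re, Complex.add_re, Complex.ofReal_re, Complex.add_im,
        Complex.ofReal_im, Complex.I_re, Complex.I_im, Complex.mul_im]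
      ring
  have hsign : ∀ t, sn (u i) (ψ t) ≠ 0 →
      σ * dh H (ξ i) (e t) (e t * Complex.I) * sn (u i) (ψ t) < 0 := by
    intro t hsn
    obtain ⟨b, hb, h⟩ := hφ' t
    have h1 : |ε / 2 * b * sn (u i) (ψ t)| ≤ 1 / 2 * sn (u i) (ψ t) ^ 2 := by
      rw [abs_mul, abs_mul, abs_of_pos (half_pos hε), ← sq_abs (sn (u i) (ψ t))]
      have h2 : 0 ≤ |sn (u i) (ψ t)| := abs_nonneg _
      calc ε / 2 * |b| * |sn (u i) (ψ t)|
          ≤ ε / 2 * (K * |sn (u i) (ψ t)|) * |sn (u i) (ψ t)| := by gcongr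
        _ = (ε * K) * (1 / 2 * |sn (u i) (ψ t)| ^ 2) := by ring
        _ ≤ 1 * (1 / 2 * |sn (u i) (ψ t)| ^ 2) := by gcongr
        _ = 1 / 2 * |sn (u i) (ψ t)| ^ 2 := one_mul _
    have h2 : 0 < sn (u i) (ψ t) ^ 2 := by positivity
    have h3 := neg_le_of_abs_le h1
    have h4 : 0 < Real.exp (ρ t) * (σ * ψ' t) := mul_pos (Real.exp_pos _) (hpos t)
    rw [h]
    have h5 : σ * -(Real.exp (ρ t) * ψ' t * (ε / 2 * b + sn (u i) (ψ t))) * sn (u i) (ψ t) =
        -((Real.exp (ρ t) * (σ * ψ' t)) *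
          (ε / 2 * b * sn (u i) (ψ t) + sn (u i) (ψ t) ^ 2)) := by ring
    rw [h5]
    have h6 : 0 < ε / 2 * b * sn (u i) (ψ t) + sn (u i) (ψ t) ^ 2 := by linarith
    linarith [mul_pos h4 h6]
  have hzero : ∀ t, sn (u i) (ψ t) = 0 → ρ t = 0 := by
    intro t hsn
    obtain ⟨ϑ, h1, h2, h3, h4⟩ := hbr t
    rw [h3, B_zero u ϑ i (by rw [h1, hsn])]
    simp
  have hcsle : ∀ α, |cs (u i) α| ≤ ‖u i‖ := by
    intro α
    rw [cs_eq, abs_mul, abs_of_nonneg (norm_nonneg _)]
    have := Real.abs_cos_le_one (α - (u i).arg)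
    calc ‖u i‖ * |Real.cos (α - (u i).arg)| ≤ ‖u i‖ * 1 := by gcongr
      _ = ‖u i‖ := mul_one _
  have hbound : ∀ x ∈ sphere (0 : ℂ) 1, |⟪ξ i, H x⟫_ℝ| ≤ ‖u i‖ := by
    intro x hx
    obtain ⟨t, rfl⟩ := exists_of_mem_sphere hx
    change |⟪ξ i, H (e t)⟫_ℝ| ≤ _
    rw [hφ, abs_mul, abs_of_pos (Real.exp_pos _)]
    calc Real.exp (ρ t) * |cs (u i) (ψ t)| ≤ 1 * ‖u i‖ := by
          gcongr
          · exact Real.exp_le_one_iff.2 (hρ0 t)
          · exact hcsle _
      _ = ‖u i‖ := one_mul _
  -- the radial derivative at the maxima and minima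
  have hmax : ∀ t, cs (u i) (ψ t) = ‖u i‖ → sn (u i) (ψ t) = 0 →
      0 ≤ dh H (ξ i) (e t) (e t) := by
    intro t hcs hsn
    refine height_max hH (ξ i) hcon (M := ‖u i‖) (fun x hx => (abs_le.1 (hbound x hx)).2)
      (hes t) ?_
    rw [hφ, hzero t hsn, hcs, Real.exp_zero, one_mul]
  have hmin : ∀ t, cs (u i) (ψ t) = -‖u i‖ → sn (u i) (ψ t) = 0 →
      dh H (ξ i) (e t) (e t) ≤ 0 := by
    intro t hcs hsn
    have hneg : ∀ x, dh H (-ξ i) x = -dh H (ξ i) x := by
      intro x
      ext v <;> simp [dh]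
    have := height_max hH (-ξ i) (fun x hx => by
      rw [hneg]
      exact neg_ne_zero.2 (hcon x hx)) (M := ‖u i‖) (fun x hx => by
        rw [inner_neg_left]
        linarith [(abs_le.1 (hbound x hx)).1]) (hes t) (by
        rw [inner_neg_left, hφ, hzero t hsn, hcs, Real.exp_zero, one_mul, neg_neg])
    rw [hneg] at this
    simpa using this
  -- the difference of the angles
  let E : ℝ → ℝ := fun t => (g (e t)).im - t + σ * (ψ t - (u i).arg)
  have hEc : Continuous E := by
    have h1 : Continuous fun t => (g (e t)).im := Complex.continuous_im.comp (hgc.comp hec)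
    fun_prop
  have hu0 : 0 < ‖u i‖ := norm_pos_iff.2 (hu i)
  have hEne : ∀ t (m : ℤ), E t ≠ π + m * (2 * π) := by
    intro t m hm
    have hA : (g (e t)).im - t = π - σ * (ψ t - (u i).arg) + m * (2 * π) := by
      simp only [E] at hm
      linarith
    have hsinA : Real.sin ((g (e t)).im - t) = σ * Real.sin (ψ t - (u i).arg) := by
      rw [hA, Real.sin_add_int_mul_two_pi, Real.sin_pi_sub]
      rcases hσ with h | h
      · rw [h, one_mul, one_mul]
      · rw [h, neg_one_mul, Real.sin_neg]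
        ring
    have hcosA : Real.cos ((g (e t)).im - t) = -Real.cos (ψ t - (u i).arg) := by
      rw [hA, Real.cos_add_int_mul_two_pi, Real.cos_pi_sub]
      rcases hσ with h | h
      · rw [h, one_mul]
      · rw [h, neg_one_mul, Real.cos_neg]
    have hσ2 : σ * σ = 1 := by
      rcases hσ with h | h <;> rw [h] <;> norm_num
    by_cases hsn : sn (u i) (ψ t) = 0
    · have hsin : Real.sin (ψ t - (u i).arg) = 0 := by
        rw [sn_eq] at hsn
        rcases mul_eq_zero.1 hsn with h | h
        · exact absurd h hu0.ne'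
        · exact h
      have hcos2 : Real.cos (ψ t - (u i).arg) ^ 2 = 1 := by
        have := Real.sin_sq_add_cos_sq (ψ t - (u i).arg)
        rw [hsin] at this
        linarith
      have hE0 := Real.exp_pos (g (e t)).re
      rcases eq_or_eq_neg_of_sq_eq_sq (Real.cos (ψ t - (u i).arg)) 1 (by linarith) with h | h
      · have h1 := hmax t (by rw [cs_eq, h, mul_one]) hsn
        rw [hfr, hcosA, h] at h1
        linarith
      · have h1 := hmin t (by rw [cs_eq, h]; ring) hsn
        rw [hfr, hcosA, h] at h1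
        linarith
    · have h1 := hsign t hsn
      rw [hfθ, hsinA, sn_eq] at h1
      have h2 : σ * (Real.exp (g (e t)).re * (σ * Real.sin (ψ t - (u i).arg))) *
          (‖u i‖ * Real.sin (ψ t - (u i).arg)) =
          Real.exp (g (e t)).re * ‖u i‖ * Real.sin (ψ t - (u i).arg) ^ 2 := by
        linear_combination (Real.exp (g (e t)).re * ‖u i‖ *
          Real.sin (ψ t - (u i).arg) ^ 2) * hσ2
      rw [h2] at h1
      have : 0 ≤ Real.exp (g (e t)).re * ‖u i‖ * Real.sin (ψ t - (u i).arg) ^ 2 := by positivity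
      linarith
  have hE2 : E 0 + 2 * π ≤ E (2 * π) := by
    have h1 : e (2 * π) = e 0 := by
      simp only [e]
      rw [Complex.exp_eq_exp_iff_exists_int]
      exact ⟨1, by push_cast; ring⟩
    simp only [E]
    rw [h1, hψper]
    nlinarith
  obtain ⟨m, hm1, hm2⟩ : ∃ m : ℤ, E 0 ≤ π + m * (2 * π) ∧ π + m * (2 * π) ≤ E 0 + 2 * π := by
    obtain ⟨m, hm, -⟩ := existsUnique_add_zsmul_mem_Ico Real.two_pi_pos π (E 0)
    rw [zsmul_eq_mul] at hm
    exact ⟨m, hm.1, hm.2.le⟩
  obtain ⟨t, ht⟩ := mem_range_of_exists_le_of_exists_ge hEc ⟨0, hm1⟩ ⟨2 * π, hm2.trans hE2⟩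
  exact hEne t m ht

/-- If the height function has a critical point then `ξ` is realized as a normal direction. -/
theorem realizes_of_critical {H : ℂ → E3} {l : Set E3} (hH : IsMembrane l H) {ξ : E3} (hξ : ξ ≠ 0)
    {x : ℂ} (hx : x ∈ closedBall (0 : ℂ) 1) (h0 : dh H ξ x = 0) : Realizes H ξ := by
  refine ⟨x, hx, ?_⟩
  set D : ℂ →ₗ[ℝ] E3 := (fderivWithin ℝ H (closedBall 0 1) x : ℂ →ₗ[ℝ] E3) with hD
  have hle : (ℝ ∙ ξ) ≤ (LinearMap.range D)ᗮ := by
    rw [Submodule.span_singleton_le_iff_mem, Submodule.mem_orthogonal]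
    rintro _ ⟨v, rfl⟩
    have := congrArg (fun T : ℂ →L[ℝ] ℝ => T v) h0
    simp only [dh_apply] at this
    exact this
  have hinj : Function.Injective D := hH.immersion x hx
  have h1 : Module.finrank ℝ (LinearMap.range D) = 2 := by
    rw [LinearMap.finrank_range_of_inj hinj, Complex.finrank_real_complex]
  have h2 := (LinearMap.range D).finrank_add_finrank_orthogonal
  rw [h1, finrank_euclideanSpace_fin] at h2
  have h3 : Module.finrank ℝ (ℝ ∙ ξ) = 1 := finrank_span_singleton hξ
  exact (Submodule.eq_of_le_of_finrank_eq hle (by omega)).symm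

/-- **Frames forcing prescribed normal directions.** For all finitely many nonzero vectors
`ξ 0, …, ξ (k - 1)` of three-space there is a frame such that every membrane spanned by it realizes
each of these vectors as a normal direction. -/
theorem result (k : ℕ) (ξ : Fin k → E3) (hξ : ∀ i, ξ i ≠ 0) :
    ∃ l : Set E3, IsFrame l ∧ ∀ H : ℂ → E3, IsMembrane l H → ∀ i, Realizes H (ξ i) := by
  obtain ⟨s, hs⟩ := exists_plane ξ hξ
  obtain ⟨K, hK0, hK⟩ := B_deriv_bound fun i => uu s (ξ i)
  have hε : 0 < (K + 1)⁻¹ := by positivity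
  refine ⟨_, isFrame_curve (fun i => uu s (ξ i)) (K + 1)⁻¹ s, fun H hH i => ?_⟩
  obtain ⟨x, hx, h0⟩ := exists_critical s ξ hs hε hK (by
    rw [inv_mul_le_iff₀ (by positivity)]
    linarith) hH i
  exact realizes_of_critical hH (hξ i) hx h0

end Pool.Agent.Results.MP_873223_gt.PrescribedNormals
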